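import Pool.Agent.Zk98.SG.Mult

/-!
# Sets given by a multiplicative set and the value of an additive function in a finite abelian group are structured
-/

set_option autoImplicit false

namespace Pool.Agent.Zk98.SG

open Finset
open Pool.Agent.W24.Katai (Mul1)

theorem structured_group {G : Type} [AddCommGroup G] [Finite G] (f : ℕ → G) (D : Set ℕ) (a : G)
    (hD : ∀ m n : ℕ, Nat.Coprime m n → (m * n ∈ D ↔ m ∈ D ∧ n ∈ D))
    (hf : ∀ m n : ℕ, Nat.Coprime m n → m ∈ D → n ∈ D → f (m * n) = f m + f n) (N : ℕ) (S : Finset ℕ)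
    (hS : ∀ t : ℕ, t ∈ S ↔ (1 ≤ t ∧ t ≤ N) ∧ t ∈ D ∧ f t = a) {C η : ℝ} (hC : 1 ≤ C) (hη : 0 ≤ η) :
    Structured C η N S := by
  classical
  have := Fintype.ofFinite G
  have e : Fin (Fintype.card (AddChar G ℂ)) ≃ AddChar G ℂ := (Fintype.equivFin _).symm
  have hG : (Fintype.card G : ℂ) ≠ 0 := by exact_mod_cast Fintype.card_ne_zero
  refine Structured.mono (C := 1) (η := 0) ⟨fun t ht => ?_, Fintype.card (AddChar G ℂ),
    fun j => (e j) (-a) / Fintype.card G, fun j n => if n ∈ D then (e j) (f n) else 0, fun j => ⟨fun n => ?_, fun m n hmn => ?_⟩,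
    ?_, ?_⟩ hC hη
  · have := ((hS t).1 ht).1
    exact Finset.mem_Ioc.2 ⟨by omega, this.2⟩
  · show ‖(if n ∈ D then (e j) (f n) else 0 : ℂ)‖ ≤ 1
    split_ifs
    · exact (AddChar.norm_apply (e j) (f n)).le
    · simp
  · show (if m * n ∈ D then (e j) (f (m * n)) else 0 : ℂ) =
      (if m ∈ D then (e j) (f m) else 0) * (if n ∈ D then (e j) (f n) else 0)
    by_cases hm : m ∈ D
    · by_cases hn : n ∈ D
      · rw [if_pos ((hD m n hmn).2 ⟨hm, hn⟩), if_pos hm, if_pos hn, hf m n hmn hm hn, AddChar.map_add_eq_mul]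
      · rw [if_neg (fun h => hn ((hD m n hmn).1 h).2), if_neg hn, mul_zero]
    · rw [if_neg (fun h => hm ((hD m n hmn).1 h).1), if_neg hm, zero_mul]
  · have h1 : ∀ j, ‖(e j) (-a) / (Fintype.card G : ℂ)‖ = 1 / Fintype.card G := by
      intro j
      rw [norm_div, AddChar.norm_apply, Complex.norm_natCast]
    simp only [h1]
    rw [sum_const, card_univ, Fintype.card_fin, AddChar.card_eq, nsmul_eq_mul, mul_one_div]
    exact (div_self (by exact_mod_cast Fintype.card_ne_zero)).le
  · rw [zero_mul]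
    refine le_of_eq (sum_eq_zero fun n hn => ?_)
    rw [norm_eq_zero, sub_eq_zero]
    have h1 : ∑ j, (e j) (-a) / (Fintype.card G : ℂ) * (if n ∈ D then (e j) (f n) else 0) =
        if n ∈ D then (∑ ψ : AddChar G ℂ, ψ (f n - a)) / Fintype.card G else 0 := by
      by_cases hnD : n ∈ D
      · simp only [if_pos hnD]
        rw [← e.sum_comp (fun ψ : AddChar G ℂ => ψ (f n - a)), sum_div]
        refine sum_congr rfl fun j _ => ?_
        rw [sub_eq_add_neg, AddChar.map_add_eq_mul]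
        ring
      · simp only [if_neg hnD, mul_zero, sum_const_zero]
    rw [h1, AddChar.sum_apply_eq_ite]
    rw [Finset.mem_Ioc] at hn
    by_cases hnD : n ∈ D
    · by_cases hna : f n = a
      · rw [if_pos ((hS n).2 ⟨⟨by omega, hn.2⟩, hnD, hna⟩), if_pos hnD, if_pos (sub_eq_zero.2 hna), div_self hG]
      · rw [if_neg (fun h => hna ((hS n).1 h).2.2), if_pos hnD, if_neg (fun h => hna (sub_eq_zero.1 h)), zero_div]
    · rw [if_neg (fun h => hnD ((hS n).1 h).2.1), if_neg hnD]

end Pool.Agent.Zk98.SG
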