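import Pool.Agent.Zk98.SG.Inner

/-!
Uncountably many complementary components of the wandering domain are singletons.
-/

set_option autoImplicit false

open Filter Topology Metric Set Polynomial

namespace Pool.Agent.Zk98.SG

open Pool.Agent.H384R2.Fatou Pool.Agent.W723.MC

namespace Sys

variable {f : ℂ → ℂ} {r s R' : ℕ → ℝ}

/-- finite itineraries are realised -/
theorem itin_fin (h : Sys f r s R') {Λ : ℕ → Bool → Set ℂ}
    (hL : ∀ n b y, ‖y‖ ≤ s (n + 1) → ∃ w ∈ Λ n b, ‖w‖ ≤ s n ∧ f w = y) (σ : ℕ → Bool) (N : ℕ) :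
    ∀ n, ∃ x : ℂ, ‖x‖ ≤ s n ∧
      ∀ i < N, f^[i] x ∈ Λ (n + i) (σ (n + i)) ∧ ‖f^[i] x‖ ≤ s (n + i) := by
  induction N with
  | zero =>
    intro n
    exact ⟨0, by rw [norm_zero]; exact (h.s_pos n).le, fun i hi => absurd hi (Nat.not_lt_zero i)⟩
  | succ N ih =>
    intro n
    obtain ⟨x', hx's, hx'⟩ := ih (n + 1)
    obtain ⟨w, hw, hws, hwx⟩ := hL n (σ n) x' hx's
    refine ⟨w, hws, fun i hi => ?_⟩
    rcases i with _ | i
    · exact ⟨hw, hws⟩
    · rw [Function.iterate_succ_apply, hwx]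
      have h1 := hx' i (by omega)
      have e : n + 1 + i = n + (i + 1) := by omega
      rwa [e] at h1

/-- infinite itineraries are realised -/
theorem itin (h : Sys f r s R') {Λ : ℕ → Bool → Set ℂ} (hc : ∀ n b, IsClosed (Λ n b))
    (hL : ∀ n b y, ‖y‖ ≤ s (n + 1) → ∃ w ∈ Λ n b, ‖w‖ ≤ s n ∧ f w = y) (σ : ℕ → Bool) :
    ∃ x : ℂ, ∀ i, f^[i] x ∈ Λ i (σ i) ∧ ‖f^[i] x‖ ≤ s i := by
  set K : ℕ → Set ℂ := fun N => {x | ‖x‖ ≤ s 0 ∧ ∀ i < N, f^[i] x ∈ Λ i (σ i) ∧ ‖f^[i] x‖ ≤ s i}
    with hK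
  have hKc : ∀ N, IsClosed (K N) := by
    intro N
    have e : K N = {x | ‖x‖ ≤ s 0} ∩ ⋂ i ∈ Finset.range N,
        (f^[i] ⁻¹' (Λ i (σ i)) ∩ {x | ‖f^[i] x‖ ≤ s i}) := by
      ext x
      simp [hK]
    rw [e]
    apply (isClosed_le continuous_norm continuous_const).inter
    apply isClosed_biInter
    intro i _
    exact ((hc i _).preimage (h.hf.continuous.iterate i)).inter
      (isClosed_le (h.hf.continuous.iterate i).norm continuous_const)
  obtain ⟨x, hx⟩ := IsCompact.nonempty_iInter_of_sequence_nonempty_isCompact_isClosed K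
    (fun N x hx => ⟨hx.1, fun i hi => hx.2 i (by omega)⟩)
    (fun N => by
      obtain ⟨x, hx, hx'⟩ := h.itin_fin hL σ N 0
      refine ⟨x, hx, fun i hi => ?_⟩
      have := hx' i hi
      rwa [zero_add] at this)
    (by
      apply IsCompact.of_isClosed_subset (isCompact_closedBall (0 : ℂ) (s 0)) (hKc 0)
      intro x hx
      rw [mem_closedBall_zero_iff]
      exact hx.1) hKc
  rw [mem_iInter] at hx
  exact ⟨x, fun i => (hx (i + 1)).2 i (Nat.lt_succ_self i)⟩

/-- points whose orbit stays in the discs are not in the wandering domain -/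
theorem not_U_of_small (h : Sys f r s R') {x : ℂ} (hx : ∀ i, ‖f^[i] x‖ ≤ s i) : x ∉ U f s 0 := by
  intro hxU
  obtain ⟨k, hk, -⟩ := (h.growth hxU 1).exists
  rw [zero_add, pow_one] at hk
  linarith [hx k]

/-- the component of such a point stays in the discs -/
theorem comp_small (h : Sys f r s R') {x : ℂ} (hx : ∀ i, ‖f^[i] x‖ ≤ s i) {z : ℂ}
    (hz : z ∈ connectedComponentIn (U f s 0)ᶜ x) (i : ℕ) : ‖f^[i] z‖ ≤ s i := by
  have hxU : x ∈ (U f s 0)ᶜ := h.not_U_of_small hx
  have hzs : ‖z‖ ≤ s 0 := by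
    by_contra hcon
    push Not at hcon
    have h1 := h.s_lt_r 0
    rw [zero_add] at h1
    have h2 : s 0 < min ‖z‖ ((s 0 + r 1) / 2) := lt_min hcon (by linarith)
    have h3 : min ‖z‖ ((s 0 + r 1) / 2) < r 1 := (min_le_right _ _).trans_lt (by linarith)
    obtain ⟨w, hw, hwt⟩ := cross isPreconnected_connectedComponentIn (mem_connectedComponentIn hxU)
      hz (t := min ‖z‖ ((s 0 + r 1) / 2)) ((hx 0).trans h2.le) (min_le_left _ _)
    have h4 : w ∈ B r s 0 := ⟨by rw [hwt]; exact h2, by rw [hwt, zero_add]; exact h3⟩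
    exact connectedComponentIn_subset _ _ hw (h.B_U 0 h4)
  have hzU : z ∉ U f s 0 := connectedComponentIn_subset _ _ hz
  have := h.not_U hzU (hzs.trans_lt (h.s_lt_r 0)) i
  rwa [zero_add] at this

theorem uncountable_single (h : Sys f r s R') :
    ¬ {x : ℂ | x ∈ (U f s 0)ᶜ ∧ connectedComponentIn (U f s 0)ᶜ x = {x}}.Countable := by
  choose Λ hΛc hΛd hΛ hΛo hΛx using fun m => (h.st m).lam
  -- points with an itinerary that is `true` infinitely often
  have hex : ∀ τ : ℕ → Bool, ∃ x : ℂ, ∀ i,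
      f^[i] x ∈ Λ i (if i % 2 = 0 then true else τ (i / 2)) ∧ ‖f^[i] x‖ ≤ s i := fun τ =>
    h.itin hΛc hΛo fun i => if i % 2 = 0 then true else τ (i / 2)
  choose x hx using hex
  have hxU : ∀ τ, x τ ∈ (U f s 0)ᶜ := fun τ => h.not_U_of_small fun i => (hx τ i).2
  have hsing : ∀ τ, connectedComponentIn (U f s 0)ᶜ (x τ) = {x τ} := by
    intro τ
    set X := connectedComponentIn (U f s 0)ᶜ (x τ) with hX
    have hxX : x τ ∈ X := mem_connectedComponentIn (hxU τ)
    have hXs : ∀ z ∈ X, ∀ i, ‖f^[i] z‖ ≤ s i := fun z hz i =>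
      h.comp_small (fun i => (hx τ i).2) hz i
    apply Set.Subset.antisymm _ (singleton_subset_iff.2 hxX)
    intro y hy
    rw [mem_singleton_iff]
    have hbd : ∀ k : ℕ, ‖y - x τ‖ ≤ 1 / ((2 * k : ℕ) + 1 : ℝ) := by
      intro k
      apply hΛx (2 * k) X isPreconnected_connectedComponentIn _
        (fun z hz => hXs z hz _) (fun z hz => hXs z hz _) ⟨x τ, hxX, ?_⟩ y hy (x τ) hxX
      · intro z hz i hi
        have h1 := hXs z hz i
        have h2 := h.s_lt_R i
        have h3 := h.R_lt i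
        have h4 : r (i + 1) ≤ r (2 * k) := h.r_mono (by omega)
        linarith
      · have h1 := (hx τ (2 * k)).1
        have e : (2 * k) % 2 = 0 := by omega
        rwa [if_pos e] at h1
    have h0 : ‖y - x τ‖ ≤ 0 := by
      have hlim : Tendsto (fun k : ℕ => (1 : ℝ) / ((2 * k : ℕ) + 1 : ℝ)) atTop (𝓝 0) := by
        have h1 : Tendsto (fun k : ℕ => 2 * k) atTop atTop :=
          tendsto_atTop_mono (fun k => by show k ≤ 2 * k; omega) tendsto_id
        exact (tendsto_one_div_add_atTop_nhds_zero_nat (𝕜 := ℝ)).comp h1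
      exact ge_of_tendsto' hlim hbd
    exact sub_eq_zero.1 (norm_le_zero_iff.1 h0)
  have hinj : Function.Injective x := by
    intro τ τ' hττ
    funext i
    by_contra hne
    have h1 := (hx τ (2 * i + 1)).1
    have h2 := (hx τ' (2 * i + 1)).1
    have e1 : (2 * i + 1) % 2 ≠ 0 := by omega
    have e2 : (2 * i + 1) / 2 = i := by omega
    rw [if_neg e1, e2] at h1 h2
    rw [← hττ] at h2
    have h3 := Set.disjoint_left.1 (hΛd (2 * i + 1))
    cases hb : τ i <;> cases hb' : τ' i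
    · exact hne (by rw [hb, hb'])
    · rw [hb] at h1
      rw [hb'] at h2
      exact h3 h1 h2
    · rw [hb] at h1
      rw [hb'] at h2
      exact h3 h2 h1
    · exact hne (by rw [hb, hb'])
  intro hcount
  have h1 : (range x).Countable := hcount.mono (by
    rintro _ ⟨τ, rfl⟩
    exact ⟨hxU τ, hsing τ⟩)
  have h2 : Countable (ℕ → Bool) := by
    have h3 : Countable (range x) := h1.to_subtype
    exact Function.Injective.countable (f := fun τ => (⟨x τ, τ, rfl⟩ : range x))
      (fun a b hab => hinj (Subtype.ext_iff.1 hab))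
  have h4 : Countable (Set ℕ) := by
    have : Function.Injective (fun (A : Set ℕ) (n : ℕ) => (open Classical in decide (n ∈ A))) := by
      intro A B hAB
      ext n
      have := congrFun hAB n
      simpa using this
    exact this.countable
  obtain ⟨g, hg⟩ := exists_surjective_nat (Set ℕ)
  exact Function.cantor_surjective g hg

end Sys

end Pool.Agent.Zk98.SG
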