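import Pool.Agent.TH224.SC.Level

/-!
Tools: images of components of sublevel sets, an explicit lemniscate with a large and a small piece,
connected sets with small image under a polynomial.
-/

set_option autoImplicit false

open Filter Topology Metric Set Polynomial

namespace Pool.Agent.Zk98.SG

open Pool.Agent.TH224.SC (Vc Vc_sub Vc_pre mem_Vc sub_Vc conf subset_of_frontier exists_large
  open_poly)

/-- a component of `{|p| ≤ s}` is bounded and maps onto the disc -/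
theorem Vc_onto {G : ℂ → ℂ} (hc : Continuous G) (ho : IsOpenMap G) {s : ℝ} {N : Set ℂ}
    (hN : IsOpen N) (hb : Bornology.IsBounded N) (hfr : ∀ z ∈ frontier N, s < ‖G z‖) {a : ℂ}
    (ha : a ∈ N) (hGa : ‖G a‖ ≤ s) :
    Vc G s a ⊆ N ∧ ∀ e : ℂ, ‖e‖ ≤ s → ∃ z ∈ Vc G s a, G z = e := by
  have h := conf hc ho (E := closedBall 0 s) (convex_closedBall _ _).isPreconnected
    isClosed_closedBall hN hb (fun z hz h => by
      rw [mem_closedBall_zero_iff] at h
      exact absurd h (not_le.2 (hfr z hz))) ha (by rwa [mem_closedBall_zero_iff])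
  have e : G ⁻¹' closedBall 0 s = {z | ‖G z‖ ≤ s} := by
    ext z; simp
  rw [e] at h
  exact ⟨h.1, fun e he => h.2 e (by rwa [mem_closedBall_zero_iff])⟩

/-- An explicit polynomial `(z / ρ') ^ N (z - e)` whose lemniscate `{|L| ≤ 4}` consists of a part
near the disc of radius `ρ` and a part in a given small disc about `e`. -/
theorem exists_lem {ρ s η : ℝ} (hρ : 0 < ρ) (hρs : ρ < s) (hs : 2 ≤ s) (hη : 0 < η) :
    ∃ L : ℂ[X], 0 < L.natDegree ∧
      (∀ z : ℂ, ‖z‖ ≤ ρ → ‖L.eval z‖ < 1 / 4) ∧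
      (∀ z : ℂ, s ≤ ‖z‖ → 4 < ‖L.eval z‖ ∧ 4 * ((‖z‖ - s) / (2 * s)) ≤ ‖L.eval z‖) ∧
      (L.eval (((ρ + 3 * s) / 4 : ℝ) : ℂ) = 0) ∧
      (∀ z : ℂ, ‖L.eval z‖ ≤ 4 → ‖z‖ ≤ (ρ + s) / 2 ∨ ‖z - ((ρ + 3 * s) / 4 : ℝ)‖ ≤ η) := by
  set ρ' : ℝ := (3 * ρ + s) / 4 with hρ'
  set ρ₂ : ℝ := (ρ + s) / 2 with hρ₂
  set e : ℝ := (ρ + 3 * s) / 4 with he
  have h1 : ρ < ρ' := by rw [hρ']; linarith
  have h2 : ρ' < ρ₂ := by rw [hρ', hρ₂]; linarith
  have h3 : ρ₂ < e := by rw [hρ₂, he]; linarith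
  have h4 : e < s := by rw [he]; linarith
  have hρ'0 : 0 < ρ' := by linarith
  have hs0 : 0 < s := by linarith
  -- choice of `N`
  have e1 : ∀ᶠ N : ℕ in atTop, (ρ / ρ') ^ N < 1 / (4 * (ρ + e)) :=
    (tendsto_pow_atTop_nhds_zero_of_lt_one (by positivity) (by rw [div_lt_one hρ'0]; exact h1)).eventually
      (gt_mem_nhds (by positivity))
  have e2 : ∀ᶠ N : ℕ in atTop, 4 / min η (s - e) < (ρ₂ / ρ') ^ N :=
    (tendsto_pow_atTop_atTop_of_one_lt (by rw [one_lt_div hρ'0]; exact h2)).eventually_gt_atTop _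
  obtain ⟨N, hN1, hN2⟩ := (e1.and e2).exists
  have hmin : 0 < min η (s - e) := lt_min hη (by linarith)
  rw [div_lt_iff₀ hmin] at hN2
  set L : ℂ[X] := (C ((1 / ρ' : ℝ) : ℂ) * X) ^ N * (X - C (e : ℂ)) with hL
  have hLe : ∀ z, L.eval z = (((1 / ρ' : ℝ) : ℂ) * z) ^ N * (z - e) := by
    intro z
    simp [hL]
  have hLn : ∀ z, ‖L.eval z‖ = (‖z‖ / ρ') ^ N * ‖z - e‖ := by
    intro z
    rw [hLe, norm_mul, norm_pow, norm_mul, Complex.norm_real, Real.norm_eq_abs,
      abs_of_pos (by positivity)]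
    congr 2
    field_simp
  have hone : ∀ z : ℂ, ρ₂ ≤ ‖z‖ → (ρ₂ / ρ') ^ N ≤ (‖z‖ / ρ') ^ N := by
    intro z hz
    gcongr
  have hpow1 : 1 ≤ (ρ₂ / ρ') ^ N := one_le_pow₀ (by rw [one_le_div hρ'0]; exact h2.le)
  have hnorme : ‖(e : ℂ)‖ = e := by
    rw [Complex.norm_real, Real.norm_eq_abs, abs_of_pos (by linarith)]
  refine ⟨L, ?_, ?_, ?_, ?_, ?_⟩
  · have hX : (X - C (e : ℂ)) ≠ 0 := X_sub_C_ne_zero _
    have hc : (C ((1 / ρ' : ℝ) : ℂ) * X : ℂ[X]) ≠ 0 := by
      apply mul_ne_zero _ X_ne_zero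
      rw [Ne, C_eq_zero]
      have : (1 / ρ' : ℝ) ≠ 0 := by positivity
      exact_mod_cast this
    rw [hL, natDegree_mul (pow_ne_zero _ hc) hX, natDegree_X_sub_C]
    omega
  · intro z hz
    rw [hLn]
    have h5 : ‖z - e‖ ≤ ρ + e := by
      calc ‖z - e‖ ≤ ‖z‖ + ‖(e : ℂ)‖ := norm_sub_le _ _
        _ ≤ ρ + e := by rw [hnorme]; linarith
    have h6 : (‖z‖ / ρ') ^ N ≤ (ρ / ρ') ^ N := by gcongr
    have h7 : 0 < ρ + e := by linarith
    calc (‖z‖ / ρ') ^ N * ‖z - e‖ ≤ (ρ / ρ') ^ N * (ρ + e) := by gcongr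
      _ < 1 / (4 * (ρ + e)) * (ρ + e) := by gcongr
      _ = 1 / 4 := by field_simp
  · intro z hz
    have h5 : ‖z‖ - e ≤ ‖z - e‖ := by
      have := norm_sub_norm_le z (e : ℂ)
      rwa [hnorme] at this
    have h6 := hone z (by linarith)
    have h7 : s - e ≤ ‖z - e‖ := by linarith
    have h8 : min η (s - e) ≤ s - e := min_le_right _ _
    rw [hLn]
    constructor
    · calc 4 < (ρ₂ / ρ') ^ N * min η (s - e) := hN2
        _ ≤ (‖z‖ / ρ') ^ N * ‖z - e‖ := by
          gcongr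
          exact h8.trans h7
    · have h9 : 4 * ((‖z‖ - s) / (2 * s)) ≤ ‖z‖ - s := by
        have h10 : 0 ≤ ‖z‖ - s := by linarith
        rw [← mul_div_assoc, div_le_iff₀ (by positivity)]
        nlinarith
      calc 4 * ((‖z‖ - s) / (2 * s)) ≤ ‖z‖ - s := h9
        _ ≤ 1 * ‖z - e‖ := by linarith
        _ ≤ (‖z‖ / ρ') ^ N * ‖z - e‖ := by
          gcongr
          exact hpow1.trans h6
  · rw [hLe, sub_self, mul_zero]
  · intro z hz
    by_contra hcon
    push Not at hcon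
    obtain ⟨h5, h6⟩ := hcon
    rw [hLn] at hz
    have h7 := hone z h5.le
    have : 4 < (‖z‖ / ρ') ^ N * ‖z - e‖ := by
      calc 4 < (ρ₂ / ρ') ^ N * min η (s - e) := hN2
        _ ≤ (‖z‖ / ρ') ^ N * ‖z - e‖ := by
          gcongr
          exact (min_le_left _ _).trans h6.le
    linarith

/-- A connected set on which a polynomial is close to a given value is small. -/
theorem small_of_image {G : ℂ[X]} (hG : 0 < G.natDegree) (e : ℂ) {ε : ℝ} (hε : 0 < ε) :
    ∃ η : ℝ, 0 < η ∧ ∀ X : Set ℂ, IsPreconnected X → (∀ z ∈ X, ‖G.eval z - e‖ ≤ η) →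
      ∀ y ∈ X, ∀ z ∈ X, ‖y - z‖ ≤ ε := by
  classical
  set P : ℂ[X] := G - C e with hP
  have hPdeg : 0 < P.natDegree := by rw [hP, natDegree_sub_C]; exact hG
  have hPne : P ≠ 0 := by
    intro h
    rw [h] at hPdeg
    simp at hPdeg
  set S : Finset ℂ := P.roots.toFinset with hS
  -- separation of the roots
  obtain ⟨t, ht0, htε, htsep⟩ : ∃ t : ℝ, 0 < t ∧ 2 * t ≤ ε ∧
      ∀ a ∈ S, ∀ b ∈ S, a ≠ b → 2 * t < ‖a - b‖ := by
    have h1 : ∀ᶠ t : ℝ in 𝓝[>] (0 : ℝ), ∀ a ∈ S, ∀ b ∈ S, a ≠ b → 2 * t < ‖a - b‖ := by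
      rw [Filter.eventually_all_finset]
      intro a _
      rw [Filter.eventually_all_finset]
      intro b _
      by_cases hab : a = b
      · filter_upwards with t h using absurd hab h
      · have h2 : 0 < ‖a - b‖ := norm_pos_iff.2 (sub_ne_zero.2 hab)
        have h3 : ∀ᶠ t : ℝ in 𝓝[>] (0 : ℝ), t < ‖a - b‖ / 2 :=
          nhdsWithin_le_nhds (gt_mem_nhds (by linarith))
        filter_upwards [h3] with t h4 _
        linarith
    have h2 : ∀ᶠ t : ℝ in 𝓝[>] (0 : ℝ), t < ε / 2 := nhdsWithin_le_nhds (gt_mem_nhds (by linarith))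
    obtain ⟨t, h3, h4, h5⟩ := (h1.and (h2.and self_mem_nhdsWithin)).exists
    have h5 : 0 < t := h5
    exact ⟨t, h5, by linarith, h3⟩
  -- lower bound away from the roots
  obtain ⟨T, hT, hlarge⟩ := exists_large hPdeg 1
  set A : Set ℂ := closedBall 0 T ∩ {z | ∀ a ∈ S, t ≤ ‖z - a‖} with hA
  have hAc : IsCompact A := by
    apply (isCompact_closedBall (0 : ℂ) T).inter_right
    have : {z : ℂ | ∀ a ∈ S, t ≤ ‖z - a‖} = ⋂ a ∈ S, {z | t ≤ ‖z - a‖} := by
      ext z; simp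
    rw [this]
    apply isClosed_biInter
    intro a _
    exact isClosed_le continuous_const (by fun_prop)
  obtain ⟨η, hη0, hη⟩ : ∃ η : ℝ, 0 < η ∧ ∀ z : ℂ, ‖P.eval z‖ ≤ η → ∃ a ∈ S, ‖z - a‖ < t := by
    rcases A.eq_empty_or_nonempty with h | h
    · refine ⟨1 / 2, by norm_num, fun z hz => ?_⟩
      by_contra hcon
      push Not at hcon
      have h1 : ‖z‖ ≤ T := by
        by_contra h2
        push Not at h2
        linarith [hlarge z h2.le]
      have : z ∈ A := ⟨by rwa [mem_closedBall_zero_iff], hcon⟩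
      rw [h] at this
      exact this
    · obtain ⟨z₀, hz₀, hmin⟩ := hAc.exists_isMinOn h (f := fun z => ‖P.eval z‖)
        P.continuous.norm.continuousOn
      have hpos : 0 < ‖P.eval z₀‖ := by
        rw [norm_pos_iff]
        intro h0
        have h1 : z₀ ∈ S := by
          rw [hS, Multiset.mem_toFinset, mem_roots hPne]
          exact h0
        have := hz₀.2 z₀ h1
        rw [sub_self, norm_zero] at this
        linarith
      refine ⟨min (‖P.eval z₀‖ / 2) (1 / 2), lt_min (by positivity) (by norm_num), fun z hz => ?_⟩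
      by_contra hcon
      push Not at hcon
      have h1 : ‖z‖ ≤ T := by
        by_contra h2
        push Not at h2
        have := hz.trans (min_le_right _ _)
        linarith [hlarge z h2.le]
      have h2 : ‖P.eval z₀‖ ≤ ‖P.eval z‖ := hmin (⟨by rwa [mem_closedBall_zero_iff], hcon⟩ : z ∈ A)
      have := hz.trans (min_le_left _ _)
      linarith
  refine ⟨η, hη0, fun X hX hXe y hy z hz => ?_⟩
  have hPe : ∀ w, P.eval w = G.eval w - e := fun w => by rw [hP, eval_sub, eval_C]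
  obtain ⟨a, haS, hya⟩ := hη y (by rw [hPe]; exact hXe y hy)
  -- `X` is in the ball about `a`
  have hsub : X ⊆ ball a t := by
    apply subset_of_frontier hX isOpen_ball hy (by rw [mem_ball, dist_eq_norm]; exact hya)
    intro w hw hwX
    have h1 : w ∈ sphere a t := frontier_ball_subset_sphere hw
    rw [mem_sphere, dist_eq_norm] at h1
    obtain ⟨b, hbS, hwb⟩ := hη w (by rw [hPe]; exact hXe w hwX)
    have hab : a ≠ b := by
      rintro rfl
      linarith
    have h2 := htsep a haS b hbS hab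
    have h3 : ‖a - b‖ ≤ ‖w - a‖ + ‖w - b‖ := by
      have := norm_sub_le_norm_sub_add_norm_sub a w b
      rw [norm_sub_rev a w] at this
      exact this
    linarith
  have h1 := hsub hz
  rw [mem_ball, dist_eq_norm] at h1
  have h2 : ‖y - z‖ ≤ ‖y - a‖ + ‖z - a‖ := by
    have := norm_sub_le_norm_sub_add_norm_sub y a z
    rw [norm_sub_rev a z] at this
    exact this
  linarith

/-- iterates of nearby maps are close -/
theorem iter_close {F : ℂ → ℂ} (hF : Continuous F) {r : ℝ} (hr : 0 < r) (m : ℕ) :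
    ∀ δ : ℝ, 0 < δ → ∃ τ : ℝ, 0 < τ ∧ ∀ f : ℂ → ℂ, (∀ w, ‖w‖ ≤ r → ‖f w - F w‖ ≤ τ) →
      ∀ z, (∀ i < m, ‖f^[i] z‖ < r / 2) → ‖f^[m] z - F^[m] z‖ ≤ δ := by
  induction m with
  | zero =>
    intro δ hδ
    exact ⟨1, one_pos, fun f _ z _ => by simpa using hδ.le⟩
  | succ m ih =>
    intro δ hδ
    have huc : UniformContinuousOn F (closedBall (0 : ℂ) r) :=
      (isCompact_closedBall _ _).uniformContinuousOn_of_continuous hF.continuousOn
    rw [Metric.uniformContinuousOn_iff] at huc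
    obtain ⟨η, hη, h⟩ := huc (δ / 2) (by positivity)
    have hη' : 0 < min (η / 2) (r / 2) := lt_min (by linarith) (by linarith)
    obtain ⟨τ, hτ, h'⟩ := ih (min (η / 2) (r / 2)) hη'
    refine ⟨min τ (δ / 2), lt_min hτ (by linarith), fun f hf z hz => ?_⟩
    have h1 := h' f (fun w hw => (hf w hw).trans (min_le_left _ _)) z
      (fun i hi => hz i (by omega))
    have h2 := hz m (by omega)
    rw [Function.iterate_succ_apply', Function.iterate_succ_apply']
    have h3 : ‖F^[m] z‖ ≤ r := by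
      have := norm_sub_norm_le (F^[m] z) (f^[m] z)
      rw [norm_sub_rev] at this
      have := min_le_right (η / 2) (r / 2)
      linarith
    have h4 := h (f^[m] z) (by rw [mem_closedBall_zero_iff]; linarith) (F^[m] z)
      (by rwa [mem_closedBall_zero_iff]) (by
        rw [dist_eq_norm]
        have := min_le_left (η / 2) (r / 2)
        linarith)
    rw [dist_eq_norm] at h4
    have h5 := (hf (f^[m] z) (by linarith)).trans (min_le_right _ _)
    calc ‖f (f^[m] z) - F (F^[m] z)‖ ≤ ‖f (f^[m] z) - F (f^[m] z)‖ +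
          ‖F (f^[m] z) - F (F^[m] z)‖ := norm_sub_le_norm_sub_add_norm_sub _ _ _
      _ ≤ δ := by linarith

end Pool.Agent.Zk98.SG
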