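import Pool.Agent.W24.Katai
import Pool.Agent.H767R2.Weyl

/-!
# Polynomial phases over sets with a multiplicative structure

`Structured C η N S`: up to `η N` in the mean, the indicator function of the subset `S` of `(0, N]` is a combination of
multiplicative functions into the unit disc, with coefficients of sum at most `C`. The criterion of Daboussi and Kátai, uniform
in the multiplicative functions (`Pool.Agent.W24.Katai`), and Weyl's theorem show that the sums of `e (θ Q n)`, `θ` irrational,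
over these sets are small.
-/

set_option autoImplicit false

namespace Pool.Agent.Zk98.SG

open Finset Filter Topology Polynomial
open Pool.Agent.H767R2 (ee ee_add norm_ee ee_neg ee_sub)
open Pool.Agent.W24.Katai (Mul1 cor katai)

/-- the correlations of a polynomial phase -/
theorem cor_tendsto {Q : ℤ[X]} (hQ : 1 ≤ Q.natDegree) {θ : ℝ} (hθ : Irrational θ) {p q : ℕ} (hpq : p ≠ q) :
    Tendsto (fun M : ℕ => cor (fun n => ee (θ * ((Q.eval (n : ℤ) : ℤ) : ℝ))) p q M / M) atTop (𝓝 0) := by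
  obtain ⟨R, hR⟩ : ∃ R : ℤ[X], R = Q.comp (C (p : ℤ) * X) - Q.comp (C (q : ℤ) * X) := ⟨_, rfl⟩
  obtain ⟨β, hβ⟩ : ∃ β : ℝ[X], β = C θ * R.map (Int.castRingHom ℝ) := ⟨_, rfl⟩
  have hRv : ∀ n : ℕ, R.eval (n : ℤ) = Q.eval ((p * n : ℕ) : ℤ) - Q.eval ((q * n : ℕ) : ℤ) := by
    intro n
    rw [hR]
    simp [eval_comp]
  have hval : ∀ n : ℕ, β.eval (n : ℝ) = θ * ((R.eval (n : ℤ) : ℤ) : ℝ) := by
    intro n
    rw [hβ, eval_mul, eval_C]
    congr 1
    have h2 := eval_intCast_map (Int.castRingHom ℝ) R (n : ℤ)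
    simpa using h2
  have hirr : ∃ i, 1 ≤ i ∧ Irrational (β.coeff i) := by
    refine ⟨Q.natDegree, hQ, ?_⟩
    rw [hβ, coeff_C_mul, coeff_map]
    have h1 : R.coeff Q.natDegree ≠ 0 := by
      rw [hR, coeff_sub, comp_C_mul_X_coeff, comp_C_mul_X_coeff, ← mul_sub]
      refine mul_ne_zero ?_ ?_
      · rw [coeff_natDegree, leadingCoeff_ne_zero]
        rintro rfl
        simp at hQ
      · intro h
        have h3 : ((p : ℤ)) ^ Q.natDegree = (q : ℤ) ^ Q.natDegree := sub_eq_zero.1 h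
        have h4 : p ^ Q.natDegree = q ^ Q.natDegree := by exact_mod_cast h3
        exact hpq (Nat.pow_left_injective (by omega) h4)
    simpa using hθ.mul_intCast h1
  have h1 := Pool.Agent.H767R2.weyl_poly β hirr
  rw [Pool.Agent.H767R2.tendsto_cav_iff] at h1
  rw [Metric.tendsto_atTop]
  intro ε hε
  obtain ⟨M₀, hM₀⟩ := eventually_atTop.1 (h1.eventually (gt_mem_nhds (show (0 : ℝ) < ε / 4 by positivity)))
  obtain ⟨M₁, hM₁⟩ := exists_nat_ge (4 / ε)
  refine ⟨max M₀ (max M₁ 1), fun M hM => ?_⟩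
  have hMM₀ : M₀ ≤ M := (le_max_left _ _).trans hM
  have hMM₁ : M₁ ≤ M := (le_max_left _ _).trans ((le_max_right _ _).trans hM)
  have hM1 : 1 ≤ M := (le_max_right _ _).trans ((le_max_right _ _).trans hM)
  have hM1R : (1 : ℝ) ≤ M := by exact_mod_cast hM1
  have h4 : 4 / ε ≤ M := hM₁.trans (by exact_mod_cast hMM₁)
  have h5 : 4 ≤ ε * M := by
    rw [div_le_iff₀ hε] at h4
    linarith
  have e1 : cor (fun n => ee (θ * ((Q.eval (n : ℤ) : ℤ) : ℝ))) p q M =
      ∑ n ∈ range (M + 1), ee (β.eval (n : ℝ)) - ee (β.eval ((0 : ℕ) : ℝ)) := by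
    unfold cor
    have h6 : range (M + 1) = insert 0 (Ioc 0 M) := by
      ext y
      simp only [Finset.mem_range, Finset.mem_insert, Finset.mem_Ioc]
      omega
    rw [h6, sum_insert (by simp), add_sub_cancel_left]
    refine sum_congr rfl fun n _ => ?_
    rw [hval, hRv, Int.cast_sub, mul_sub, ee_sub]
  have h7 := hM₀ (M + 1) (by omega)
  have hM2 : (0 : ℝ) < ((M + 1 : ℕ) : ℝ) := by positivity
  rw [div_lt_iff₀ hM2] at h7
  rw [dist_zero_right, norm_div, Complex.norm_natCast, div_lt_iff₀ (by linarith), e1]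
  refine (norm_sub_le _ _).trans_lt ?_
  rw [norm_ee]
  push_cast at h7
  nlinarith

/-- polynomial phases are orthogonal to all multiplicative functions, uniformly -/
theorem uniform {Q : ℤ[X]} (hQ : 1 ≤ Q.natDegree) {θ : ℝ} (hθ : Irrational θ) {ε : ℝ} (hε : 0 < ε) :
    ∃ N₀ : ℕ, ∀ N : ℕ, N₀ ≤ N → ∀ g : ℕ → ℂ, Mul1 g →
      ‖∑ n ∈ Ioc 0 N, g n * ee (θ * ((Q.eval (n : ℤ) : ℤ) : ℝ))‖ ≤ ε * N :=
  katai (fun n => (norm_ee _).le) (fun p q _ _ h => cor_tendsto hQ hθ h) hε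

/-- Up to `η N` in the mean, the indicator function of the subset `S` of `(0, N]` is a combination of multiplicative
functions into the unit disc, with coefficients of sum at most `C`. -/
def Structured (C η : ℝ) (N : ℕ) (S : Finset ℕ) : Prop :=
  S ⊆ Ioc 0 N ∧ ∃ (J : ℕ) (c : Fin J → ℂ) (g : Fin J → ℕ → ℂ), (∀ j, Mul1 (g j)) ∧ ∑ j, ‖c j‖ ≤ C ∧
    ∑ n ∈ Ioc 0 N, ‖(if n ∈ S then (1 : ℂ) else 0) - ∑ j, c j * g j n‖ ≤ η * N

theorem Structured.mono {C C' η η' : ℝ} {N : ℕ} {S : Finset ℕ} (h : Structured C η N S) (hC : C ≤ C')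
    (hη : η ≤ η') : Structured C' η' N S := by
  obtain ⟨h1, J, c, g, h2, h3, h4⟩ := h
  exact ⟨h1, J, c, g, h2, h3.trans hC, h4.trans (mul_le_mul_of_nonneg_right hη (Nat.cast_nonneg _))⟩

theorem sum_structured {C η ε : ℝ} {N : ℕ} {S : Finset ℕ} (h : Structured C η N S) (hε : 0 ≤ ε) {F : ℕ → ℂ}
    (hF : ∀ n, ‖F n‖ ≤ 1) (hK : ∀ g : ℕ → ℂ, Mul1 g → ‖∑ n ∈ Ioc 0 N, g n * F n‖ ≤ ε * N) :
    ‖∑ n ∈ S, F n‖ ≤ (η + C * ε) * N := by
  obtain ⟨hS, J, c, g, hg, hc, hη⟩ := h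
  have e1 : ∑ n ∈ S, F n = ∑ n ∈ Ioc 0 N, ((if n ∈ S then (1 : ℂ) else 0) - ∑ j, c j * g j n) * F n +
      ∑ j, c j * ∑ n ∈ Ioc 0 N, g j n * F n := by
    have h1 : ∑ n ∈ S, F n = ∑ n ∈ Ioc 0 N, (if n ∈ S then (1 : ℂ) else 0) * F n := by
      rw [← sum_subset hS (fun n _ hn => by rw [if_neg hn, zero_mul])]
      exact sum_congr rfl fun n hn => by rw [if_pos hn, one_mul]
    have h2 : ∑ j, c j * ∑ n ∈ Ioc 0 N, g j n * F n = ∑ n ∈ Ioc 0 N, (∑ j, c j * g j n) * F n := by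
      simp only [mul_sum, sum_mul]
      rw [sum_comm]
      exact sum_congr rfl fun n _ => sum_congr rfl fun j _ => by ring
    rw [h1, h2, ← sum_add_distrib]
    exact sum_congr rfl fun n _ => by ring
  have h1 : ‖∑ n ∈ Ioc 0 N, ((if n ∈ S then (1 : ℂ) else 0) - ∑ j, c j * g j n) * F n‖ ≤ η * N := by
    refine (norm_sum_le _ _).trans (le_trans (sum_le_sum fun n _ => ?_) hη)
    rw [norm_mul]
    exact mul_le_of_le_one_right (norm_nonneg _) (hF n)
  have h2 : ‖∑ j, c j * ∑ n ∈ Ioc 0 N, g j n * F n‖ ≤ C * (ε * N) := by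
    refine (norm_sum_le _ _).trans ?_
    have h3 : ∀ j ∈ (univ : Finset (Fin J)), ‖c j * ∑ n ∈ Ioc 0 N, g j n * F n‖ ≤ ‖c j‖ * (ε * N) := by
      intro j _
      rw [norm_mul]
      exact mul_le_mul_of_nonneg_left (hK _ (hg j)) (norm_nonneg _)
    refine (sum_le_sum h3).trans ?_
    rw [← sum_mul]
    exact mul_le_mul_of_nonneg_right hc (by positivity)
  rw [e1]
  refine (norm_add_le _ _).trans ?_
  calc _ ≤ η * N + C * (ε * N) := add_le_add h1 h2
    _ = _ := by ring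

/-- a statement which holds along all sequences of sets with small exponential sums holds for all large structured sets -/
theorem transfer {Q : ℤ[X]} (hQ : 1 ≤ Q.natDegree) {κ : ℝ} (hκ : 0 < κ) (T : ℕ) (P : Finset ℕ → Prop)
    (h : ∀ s : ℕ → Finset ℕ, (∀ j, ∀ t ∈ s j, T < t) →
      (∀ θ : ℝ, Irrational θ → IsAlgebraic ℤ θ → ∀ ε : ℝ, 0 < ε → ∀ᶠ j : ℕ in atTop,
        ‖∑ n ∈ s j, ee (θ * ((Q.eval (n : ℤ) : ℤ) : ℝ))‖ ≤ ε * (s j).card) → ∀ᶠ j : ℕ in atTop, P (s j)) :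
    ∃ η : ℝ, 0 < η ∧ ∀ C : ℝ, ∃ N₀ : ℕ, ∀ N : ℕ, N₀ ≤ N → ∀ S : Finset ℕ, Structured C η N S →
      κ * N ≤ S.card → P (S.filter (T < ·)) := by
  classical
  by_contra hcon
  push Not at hcon
  -- the algebraic numbers
  obtain ⟨φ, hφ⟩ : ∃ φ : ℕ → ℝ, {θ : ℝ | IsAlgebraic ℤ θ} = Set.range φ :=
    (Algebraic.countable ℤ ℝ).exists_eq_range ⟨0, isAlgebraic_zero⟩
  have hη : ∀ j : ℕ, (0 : ℝ) < 1 / ((j : ℝ) + 1) := fun j => by positivity
  choose C hC using fun j : ℕ => hcon (1 / ((j : ℝ) + 1)) (hη j)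
  obtain ⟨C', hC'⟩ : ∃ C' : ℕ → ℝ, C' = fun j => max (C j) 0 := ⟨_, rfl⟩
  have hC'0 : ∀ j, 0 ≤ C' j := fun j => by rw [hC']; exact le_max_right _ _
  have hC'C : ∀ j, C j ≤ C' j := fun j => by rw [hC']; exact le_max_left _ _
  have hthr : ∀ i j : ℕ, ∃ N₀ : ℕ, Irrational (φ i) → ∀ N : ℕ, N₀ ≤ N → ∀ g : ℕ → ℂ, Mul1 g →
      ‖∑ n ∈ Ioc 0 N, g n * ee (φ i * ((Q.eval (n : ℤ) : ℤ) : ℝ))‖ ≤ (1 / (((j : ℝ) + 1) * (C' j + 1))) * N := by
    intro i j
    by_cases hi : Irrational (φ i)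
    · have : (0 : ℝ) < 1 / (((j : ℝ) + 1) * (C' j + 1)) := by
        have := hC'0 j
        positivity
      obtain ⟨N₀, hN₀⟩ := uniform hQ hi this
      exact ⟨N₀, fun _ => hN₀⟩
    · exact ⟨0, fun h => absurd h hi⟩
  choose thr hthr using hthr
  choose N hN S hS hκS hP using fun j : ℕ => hC j (j + (range (j + 1)).sup fun i => thr i j)
  have hNj : ∀ j : ℕ, (j : ℝ) ≤ N j := fun j => by
    have := hN j
    exact_mod_cast (Nat.le_add_right _ _).trans this
  have hcard : ∀ j, (((S j).filter (T < ·)).card : ℝ) ≥ κ * N j - (T + 1) := by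
    intro j
    have h1 := card_filter_add_card_filter_not (s := S j) (T < ·)
    have h2 : ((S j).filter fun t => ¬ T < t).card ≤ T + 1 := by
      have h3 : (S j).filter (fun t => ¬ T < t) ⊆ range (T + 1) := by
        intro t ht
        rw [mem_filter] at ht
        exact Finset.mem_range.2 (by omega)
      have := card_le_card h3
      rwa [card_range] at this
    have h3 : (((S j).filter (T < ·)).card : ℝ) + (((S j).filter fun t => ¬ T < t).card : ℝ) = (S j).card := by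
      exact_mod_cast h1
    have h4 : (((S j).filter fun t => ¬ T < t).card : ℝ) ≤ T + 1 := by exact_mod_cast h2
    have := hκS j
    linarith
  have hev := h (fun j => (S j).filter (T < ·)) (fun j t ht => (mem_filter.1 ht).2) (by
    intro θ hθ hθa ε hε
    obtain ⟨i, rfl⟩ : θ ∈ Set.range φ := by
      rw [← hφ]
      exact hθa
    obtain ⟨j₁, hj₁⟩ := exists_nat_ge (4 / (ε * κ))
    obtain ⟨j₂, hj₂⟩ := exists_nat_ge (2 * ((1 + ε) * (T + 1)) / (ε * κ))
    filter_upwards [eventually_ge_atTop (max i (max j₁ j₂))] with j hj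
    have hji : i ≤ j := (le_max_left _ _).trans hj
    have hjj₁ : (j₁ : ℝ) ≤ j := by exact_mod_cast (le_max_left _ _).trans ((le_max_right _ _).trans hj)
    have hjj₂ : (j₂ : ℝ) ≤ j := by exact_mod_cast (le_max_right _ _).trans ((le_max_right _ _).trans hj)
    have hεκ : 0 < ε * κ := by positivity
    have hNthr : thr i j ≤ N j := by
      have h1 : thr i j ≤ (range (j + 1)).sup fun i => thr i j :=
        Finset.le_sup (f := fun i => thr i j) (Finset.mem_range.2 (by omega))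
      have := hN j
      omega
    have h1 := sum_structured ((hS j).mono (hC'C j) le_rfl) (by have := hC'0 j; positivity)
      (F := fun n => ee (φ i * ((Q.eval (n : ℤ) : ℤ) : ℝ))) (fun n => (norm_ee _).le) (hthr i j hθ (N j) hNthr)
    have h2 : 1 / ((j : ℝ) + 1) + C' j * (1 / (((j : ℝ) + 1) * (C' j + 1))) ≤ 2 / ((j : ℝ) + 1) := by
      have hc := hC'0 j
      have hj0 : (0 : ℝ) < (j : ℝ) + 1 := by positivity
      have h3 : C' j * (1 / (((j : ℝ) + 1) * (C' j + 1))) ≤ 1 / ((j : ℝ) + 1) := by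
        rw [mul_one_div, div_le_div_iff₀ (by positivity) hj0]
        nlinarith
      have h4 : (2 : ℝ) / ((j : ℝ) + 1) = 1 / ((j : ℝ) + 1) + 1 / ((j : ℝ) + 1) := by ring
      linarith
    have hN0 : (0 : ℝ) ≤ N j := Nat.cast_nonneg _
    have h3 : ‖∑ n ∈ S j, ee (φ i * ((Q.eval (n : ℤ) : ℤ) : ℝ))‖ ≤ 2 / ((j : ℝ) + 1) * N j :=
      h1.trans (mul_le_mul_of_nonneg_right h2 hN0)
    have h4 : ‖∑ n ∈ (S j).filter (T < ·), ee (φ i * ((Q.eval (n : ℤ) : ℤ) : ℝ))‖ ≤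
        2 / ((j : ℝ) + 1) * N j + (T + 1) := by
      have e1 := sum_filter_add_sum_filter_not (S j) (T < ·) (fun n => ee (φ i * ((Q.eval (n : ℤ) : ℤ) : ℝ)))
      have h5 : ‖∑ n ∈ (S j).filter (fun t => ¬ T < t), ee (φ i * ((Q.eval (n : ℤ) : ℤ) : ℝ))‖ ≤ T + 1 := by
        refine (norm_sum_le _ _).trans ?_
        simp only [norm_ee, sum_const, nsmul_eq_mul, mul_one]
        have h3 : (S j).filter (fun t => ¬ T < t) ⊆ range (T + 1) := by
          intro t ht
          rw [mem_filter] at ht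
          exact Finset.mem_range.2 (by omega)
        have := card_le_card h3
        rw [card_range] at this
        exact_mod_cast this
      have e2 : ∑ n ∈ (S j).filter (T < ·), ee (φ i * ((Q.eval (n : ℤ) : ℤ) : ℝ)) =
          ∑ n ∈ S j, ee (φ i * ((Q.eval (n : ℤ) : ℤ) : ℝ)) -
            ∑ n ∈ (S j).filter (fun t => ¬ T < t), ee (φ i * ((Q.eval (n : ℤ) : ℤ) : ℝ)) := by
        rw [← e1, add_sub_cancel_right]
      rw [e2]
      exact (norm_sub_le _ _).trans (add_le_add h3 h5)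
    refine h4.trans ?_
    have h5 : (2 : ℝ) / ((j : ℝ) + 1) ≤ ε * κ / 2 := by
      rw [div_le_div_iff₀ (by positivity) (by norm_num)]
      have h6 : 4 / (ε * κ) ≤ (j : ℝ) := hj₁.trans hjj₁
      rw [div_le_iff₀ hεκ] at h6
      nlinarith
    have h6 : (1 + ε) * ((T : ℝ) + 1) ≤ ε * κ / 2 * N j := by
      have h7 : 2 * ((1 + ε) * (T + 1)) / (ε * κ) ≤ (N j : ℝ) := (hj₂.trans hjj₂).trans (hNj j)
      rw [div_le_iff₀ hεκ] at h7
      linarith
    have h7 := hcard j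
    have h8 : 2 / ((j : ℝ) + 1) * N j ≤ ε * κ / 2 * N j := mul_le_mul_of_nonneg_right h5 hN0
    have h9 : ε * (κ * N j - (T + 1)) ≤ ε * (((S j).filter (T < ·)).card : ℝ) := mul_le_mul_of_nonneg_left h7 hε.le
    nlinarith)
  obtain ⟨j, hj⟩ := hev.exists
  exact hP j hj

end Pool.Agent.Zk98.SG
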